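import Mathlib
import Pool.Agent.TH115.GD.Defs
import Pool.Agent.TH115.ID.Defs
import Pool.Agent.X243.CD.Pull
import Pool.Agent.X243.CD.Three
import Pool.Agent.N601.PB.Hom

/-!
# The Tate conjecture at 2, the Mordell-Weil group and the Tate-Shafarevich group for 100% of the
# pullbacks of an elliptic curve over `k(s)`, over all finitely generated fields of characteristic
# different from 2 and all their extensions with solvable constants

Let `R` be an integrally closed domain which is finitely generated as a ring and not a field, with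
`2 ≠ 0` in `R`, and `k` its field of fractions. (Each infinite finitely generated field of
characteristic different from 2 is the field of fractions of such an `R`.)

Let `E₀ : y² = x (x² + a x + b)` be an elliptic curve over `K₀ = k(s)` with a point of order two, `a`, `b`
polynomials. It is called a base (`Pool.Agent.X243.Gen.BaseT`) if

* `b` and `a² - 4 b` are products of linear polynomials over `k` (so the finite places of bad reduction
  are rational) and have a root of odd multiplicity;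
* the first descents are complete (`CompleteT`): every monic squarefree divisor `A` of `b` (with even
  degree, if for some `m` the degrees of `a` and `b` are at most `2 m` and equal to `4 m`) is `x(P)` for a
  point `P` of `E₀(K₀)` up to constants and squares (`x(P)` is replaced by `b` for `P = (0, 0)` and by `1`
  for `P = 0`), and the same holds for `(-2 a, a² - 4 b)`, the curve isogenous to `E₀`.

For a polynomial `h` in `t` over `k` let `X` be the elliptic surface over the projective line with the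
generic fibre `E : y² = x (x² + a(h(t)) x + b(h(t)))`, the pullback of `E₀` by `s = h(t)`. Its geometric
genus tends to infinity with the degree of `h`.

Call `h` good (for `E₀`, of degree `n`) if `h - ξ` is irreducible over `k` of degree `n` and separable
for all roots `ξ` of `b (a² - 4 b)` and for EVERY extension field `L` of `k` (for example `L = k`) with a
separable closure `L'` the following holds.

(A) If the elements of `L` which are separable algebraic over `k` lie in a normal extension `M` of `k` in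
`L'` such that none of the `h - ξ` splits into linear factors over `M`, then (`HoldsOver`)

(i) the Tate conjecture for divisors at the prime 2 holds for the surface over `L` (`TateAtTwo`);

(ii) the pullback of points is an injective homomorphism `ι : E₀(k(s)) → E(L(t))` and
`E(L(t)) = 2 E(L(t)) + ι(E₀(k(s)))`; if `E(L(t))` is finitely generated (the theorem of Lang and Néron for
finitely generated `L`), then there is an odd number `r` with `r E(L(t)) ⊆ ι(E₀(k(s)))`, so that the rank
of `E(L(t))` is the rank of `E₀(k(s))`;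

(iii) if there are no conditions at infinity (`NoInf`: there is no `m` such that the degree of `a` is at
most `2 m` and the degree of `b` or of `a² - 4 b` is `4 m`), then every class of 2-power order in
`H¹(L(t), E)` which is trivial over the completions of `L(t)` at all finite places is zero; so the
Tate-Shafarevich group has no element of order two.

(B) The same is true if for each element of `L` which is separable algebraic over `k` the Galois group of
its minimal polynomial over `k` is solvable.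

Theorem. Let `n ≥ 5`.

(1) (Congruences, uniform in `E₀`.) For every `m`, every `D ≠ 0` in `R` and every `η > 0` there is an
ideal `M` of `R` with finite quotient such that for EVERY base `E₀` (`n` odd or `NoInf`) for which the roots
of `b (a² - 4 b)` are among `r₁ / D`, ..., `r_m / D` with `r_i` in `R`, the proportion of the residue
classes `z` modulo `M` of polynomials over `R` of degree at most `n`, such that EVERY polynomial in `z`
is good for `E₀`, is at least `1 - η`.

(2) (100%.) Let `B 0`, `B 1`, ... be a sequence of nonempty finite sets of polynomials over `R` of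
degree at most `n` which is equidistributed modulo each ideal of `R` with finite quotient. Then for
every base `E₀` (`n` odd or `NoInf`) the proportion of the `h` in `B i` which are good for `E₀` tends to `1`.

(3) (Examples.) The following curves over `k(s)` are bases with `NoInf`, so all this
holds for them and all `n ≥ 5`: the universal curve `y² = x (x² + x + s)` with a point of order two; the
curves `y² = x (x² + (w² + α + β - 2 s) x + (s - α) (s - β))`, `w ≠ 0`, `α ≠ β` in `k`, and they have a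
point of infinite order over `k(s)`; the curves with `a = aT2 μ`, `b = bT2 μ`,
`b = (s + (1 + μ)²) (s + μ² (1 + μ)²) (s + μ²)`, `a² - 4 b = -4 s³`, `μ ≠ 0, -1` in `k`, and they have two
linearly independent points over `k(s)` if also `μ ≠ 1, -2` and `2 μ ≠ -1`.

The proof: Frobenius elements at maximal ideals of `R` show that the Galois groups of the `h - ξ` over `k`
are the full symmetric groups; so the `h - ξ` stay irreducible over `L`, they are not constants times
norms from quadratic extensions of `L`, and no constant becomes a square modulo one of them. Every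
squarefree divisor of `b(h)` is the pullback of a divisor of `b`, so the descents via the isogenies of
degree two are complete for `E` with the pullbacks of the points of `E₀` and the isogenous curve; and a
sieve over the maximal ideals of `R` with a modulus which does not depend on the constants `r_i`.
-/

namespace Pool.Agent.Results.MP_89bcae_ag.AlmostAllPullbacks

open Polynomial Pool.Agent.TH115.GD Pool.Agent.X243.CD Pool.Agent.W309 Filter Topology
open WeierstrassCurve.Affine
open Pool.Agent.X243.Gen (BaseT NoInf aT2 bT2)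
open scoped Classical

/-- The polynomial over `k` with the coefficients `c`. -/
noncomputable def poly {R : Type} [CommRing R] (k : Type) [Field k] [Algebra R k] {r : ℕ}
    (c : Fin r → R) : k[X] :=
  ∑ j : Fin r, C (algebraMap R k (c j)) * X ^ (j : ℕ)

/-- The curve `y² = x (x² + a x + b)` over `K₀ = k(s)`. -/
noncomputable abbrev E0 {k : Type} [Field k] (K₀ : Type) [Field K₀] [Algebra k[X] K₀] (a b : k[X]) :
    WeierstrassCurve K₀ :=
  crvT (algebraMap k[X] K₀ a) (algebraMap k[X] K₀ b)

/-- The pullback `y² = x (x² + a(h(t)) x + b(h(t)))` over `K = L(t)`. -/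
noncomputable abbrev Eh {k : Type} [Field k] (L K : Type) [Field L] [Algebra k L] [Field K]
    [Algebra L[X] K] (a b h : k[X]) : WeierstrassCurve K :=
  crvT (algebraMap L[X] K ((a.comp h).map (algebraMap k L)))
    (algebraMap L[X] K ((b.comp h).map (algebraMap k L)))

/-- The conclusions for the pullback of `y² = x (x² + a x + b)` by `h` over `L` (`L'` is a separable
closure of `L`, `K = L(t)`, `F = L'(t)`), for the polynomials `a`, `b`, `h` over the subfield `k` of `L`. -/
def HoldsOver {k : Type} [Field k] (K₀ : Type) [Field K₀] [Algebra k[X] K₀] (a b h : k[X])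
    (L L' K F : Type) [Field L] [Field L']
    [Algebra L L'] [Field K] [Algebra L[X] K] [IsFractionRing L[X] K] [Field F] [Algebra L'[X] F]
    [IsFractionRing L'[X] F] [Algebra K F] [Algebra k L] : Prop :=
  TateAtTwo (F := F) L' (Eh L K a b h) ∧
    (∃ (ψ : K₀ →+* K) (ι : Pt (E0 K₀ a b) K₀ →+ Pt (Eh L K a b h) K),
      (∀ f : k[X], ψ (algebraMap k[X] K₀ f) =
        algebraMap L[X] K ((f.comp h).map (algebraMap k L))) ∧
      Function.Injective ι ∧
      (∀ (x y : K₀) (hn : ((E0 K₀ a b).baseChange K₀).toAffine.Nonsingular x y),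
        ∃ hn' : ((Eh L K a b h).baseChange K).toAffine.Nonsingular (ψ x) (ψ y),
          ι (Point.some x y hn) = Point.some (ψ x) (ψ y) hn') ∧
      (∀ P : Pt (Eh L K a b h) K, ∃ (Q : Pt (Eh L K a b h) K) (P1 : Pt (E0 K₀ a b) K₀),
        P = Q + Q + ι P1) ∧
      (AddGroup.FG (Pt (Eh L K a b h) K) → ∃ r : ℕ, Odd r ∧
        ∀ P : Pt (Eh L K a b h) K, ∃ P1 : Pt (E0 K₀ a b) K₀, r • P = ι P1)) ∧
    (NoInf a b → Sha.ShaTwoTrivial L[X] (Eh L K a b h))

/-- The good polynomials. -/
structure Good (k K₀ : Type) [Field k] [Field K₀] [Algebra k[X] K₀] (n : ℕ) (a b h : k[X]) :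
    Prop where
  fib : ∀ ξ : k, (b * (a ^ 2 - 4 * b)).IsRoot ξ →
    Irreducible (h - C ξ) ∧ (h - C ξ).natDegree = n ∧ (h - C ξ).Separable
  tate : ∀ (L L' K F : Type) [Field L] [Field L'] [Algebra L L'] [Field K] [Algebra L[X] K]
    [IsFractionRing L[X] K] [Field F] [Algebra L'[X] F] [IsFractionRing L'[X] F] [Algebra K F]
    [Algebra k L] [Algebra k L'] [IsScalarTower k L L'], IsTower L L' K F →
      ∀ M : IntermediateField k L', Normal k M →
        (∀ x : L, IsSeparable k x → algebraMap L L' x ∈ M) →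
        (∀ ξ : k, (b * (a ^ 2 - 4 * b)).IsRoot ξ → ¬ ((h - C ξ).map (algebraMap k M)).Splits) →
        HoldsOver K₀ a b h L L' K F
  solv : ∀ (L L' K F : Type) [Field L] [Field L'] [Algebra L L'] [Field K] [Algebra L[X] K]
    [IsFractionRing L[X] K] [Field F] [Algebra L'[X] F] [IsFractionRing L'[X] F] [Algebra K F]
    [Algebra k L] [Algebra k L'] [IsScalarTower k L L'], IsTower L L' K F →
      (∀ x : L, IsSeparable k x → Group.IsSolvable (minpoly k x).Gal) →
        HoldsOver K₀ a b h L L' K F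

/-- The polynomial `y` over `R` is in the residue class `z`. -/
def InClass {R : Type} [CommRing R] {n : ℕ} {M : Ideal R} (y : Fin (n + 1) → R)
    (z : Fin (n + 1) → R ⧸ M) : Prop :=
  ∀ j, Ideal.Quotient.mk M (y j) = z j

/-- A sequence of finite sets of polynomials of degree at most `n` which is equidistributed modulo each
ideal with finite quotient. -/
def Equidistributed {R : Type} [CommRing R] {n : ℕ} (B : ℕ → Finset (Fin (n + 1) → R)) : Prop :=
  ∀ M : Ideal R, Finite (R ⧸ M) → ∀ z : Fin (n + 1) → R ⧸ M,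
    Tendsto (fun i => (((B i).filter (fun y => InClass y z)).card : ℝ) / ((B i).card : ℝ)) atTop
      (𝓝 (1 / (Nat.card (Fin (n + 1) → R ⧸ M) : ℝ)))

section holds

open Pool.Agent.X243.Gen (FF pull_extT pb_one_comp solvM solvM_normal mem_solvM solvM_not_splits)

variable {k K₀ : Type} [Field k] [Field K₀] [Algebra k[X] K₀] [IsFractionRing k[X] K₀]

theorem holds_ext (h2 : (2 : k) ≠ 0) {a b h : k[X]} (hB : BaseT K₀ a b) {n : ℕ} (h5 : 5 ≤ n)
    (hpar : Odd n ∨ NoInf a b)
    (hf : ∀ ξ : k, (b * (a ^ 2 - 4 * b)).IsRoot ξ → FF n (h - C ξ))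
    {L L' K F : Type} [Field L] [Field L'] [Algebra L L'] [Field K] [Algebra L[X] K]
    [IsFractionRing L[X] K] [Field F] [Algebra L'[X] F] [IsFractionRing L'[X] F] [Algebra K F]
    [Algebra k L] [Algebra k L'] [IsScalarTower k L L'] (hT : IsTower L L' K F)
    (M : IntermediateField k L') (hMn : Normal k M)
    (hM : ∀ x : L, IsSeparable k x → algebraMap L L' x ∈ M)
    (hns : ∀ ξ : k, (b * (a ^ 2 - 4 * b)).IsRoot ξ →
      ¬ ((h - C ξ).map (algebraMap k M)).Splits) :
    HoldsOver K₀ a b h L L' K F := by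
  have hsc : IsSepClosure L L' := hT.sep
  have h2L : (2 : L) ≠ 0 := by
    rw [← map_ofNat (algebraMap k L) 2]
    exact (map_ne_zero_iff _ (algebraMap k L).injective).2 h2
  -- the degree of `h`
  obtain ⟨ξ₀, hξ₀⟩ := hB.ob
  have hr₀ : (b * (a ^ 2 - 4 * b)).IsRoot ξ₀ := by
    have h3 : b.IsRoot ξ₀ := (rootMultiplicity_pos hB.hb).1 hξ₀.pos
    rw [IsRoot.def, eval_mul, IsRoot.def.1 h3, zero_mul]
  have hq : h.natDegree = n := by
    have h3 := (hf ξ₀ hr₀).1.2
    rwa [natDegree_sub_C] at h3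
  have key := pull_extT h2 hB (q := h) (r := 1) h5 isCoprime_one_right hq
    (by rw [natDegree_one]; exact Nat.zero_le n)
    (fun ξ hξ => by rw [mul_one]; exact hf ξ hξ) hpar (Or.inl rfl) (K := K) (F := F) hT M hMn hM
    (fun ξ hξ => by rw [mul_one]; exact hns ξ hξ)
  have t1 := key.1
  rw [pb_one_comp, pb_one_comp] at t1
  refine ⟨t1, ?_⟩
  obtain ⟨ψ, hψ, D⟩ := data_pull (K₀ := K₀) (K := K) (algebraMap k L) h2 hB
    (q := h.map (algebraMap k L)) (n := n) (by rw [natDegree_map, hq]; omega)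
    (by rw [natDegree_map, hq]) (fun ξ hξ => by
      obtain ⟨f1, f2, f3⟩ := hf ξ hξ
      obtain ⟨i1, i2⟩ := irr_stable f2 (by rw [f1.2]; exact h5) f3 h2 L L' M hM (hns ξ hξ)
      have e : (h - C ξ).map (algebraMap k L) = h.map (algebraMap k L) - C (algebraMap k L ξ) := by
        rw [Polynomial.map_sub, map_C]
      rw [← e]
      exact ⟨i1, by rw [natDegree_map, f1.2], i2⟩) hpar
  have ec : ∀ f : k[X], (f.comp h).map (algebraMap k L) =
      (f.map (algebraMap k L)).comp (h.map (algebraMap k L)) := fun f => Polynomial.map_comp _ _ _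
  have hψ' : ∀ f : k[X], ψ (algebraMap k[X] K₀ f) =
      algebraMap L[X] K ((f.comp h).map (algebraMap k L)) := fun f => by rw [hψ, ec]
  rw [← ec, ← ec] at D
  obtain ⟨ι, hι, hs, hr⟩ := Pool.Agent.N601.PB.exists_hom ψ (hψ' a).symm (hψ' b).symm
  have hpts : ∀ P : Pt (Eh L K a b h) K, ∃ (Q : Pt (Eh L K a b h) K) (P1 : Pt (E0 K₀ a b) K₀),
      P = Q + Q + ι P1 := by
    intro P
    obtain ⟨Q, P1, P2, h1, h3, e⟩ := pts_data h2L D (fun A h => Or.inr h) (fun A h => Or.inr h) P
    obtain ⟨R1, e1⟩ := hr P1 h1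
    obtain ⟨R2, e2⟩ := hr P2 h3
    exact ⟨Q, R1 + R2, by rw [map_add, e1, e2]; exact e⟩
  refine ⟨⟨ψ, ι, hψ', hι, hs, hpts, fun hfg => ?_⟩, fun hN => ?_⟩
  · obtain ⟨r, hr, hr'⟩ := Pool.Agent.N601.PB.odd_exponent ι.range hfg (fun P => by
      obtain ⟨Q, P1, e⟩ := hpts P
      exact ⟨Q, ι P1, ⟨P1, rfl⟩, e⟩)
    refine ⟨r, hr, fun P => ?_⟩
    obtain ⟨P1, e⟩ := hr' P
    exact ⟨P1, e.symm⟩
  · exact sha_data h2L D (fun A => Or.inl hN) (fun A => Or.inl hN)

theorem holds_solv (h2 : (2 : k) ≠ 0) {a b h : k[X]} (hB : BaseT K₀ a b) {n : ℕ} (h5 : 5 ≤ n)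
    (hpar : Odd n ∨ NoInf a b)
    (hf : ∀ ξ : k, (b * (a ^ 2 - 4 * b)).IsRoot ξ → FF n (h - C ξ))
    {L L' K F : Type} [Field L] [Field L'] [Algebra L L'] [Field K] [Algebra L[X] K]
    [IsFractionRing L[X] K] [Field F] [Algebra L'[X] F] [IsFractionRing L'[X] F] [Algebra K F]
    [Algebra k L] [Algebra k L'] [IsScalarTower k L L'] (hT : IsTower L L' K F)
    (hM : ∀ x : L, IsSeparable k x → Group.IsSolvable (minpoly k x).Gal) :
    HoldsOver K₀ a b h L L' K F := by
  have hsc : IsSepClosure L L' := hT.sep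
  have : IsSepClosed L' := IsSepClosure.sep_closed L
  exact holds_ext h2 hB h5 hpar hf hT (solvM k L') (solvM_normal L')
    (fun x hx => mem_solvM hx (hM x hx))
    (fun ξ hξ => solvM_not_splits L' (hf ξ hξ).2.1 (by rw [(hf ξ hξ).1.2]; exact h5)
      (hf ξ hξ).2.2)

theorem good_of_FF (h2 : (2 : k) ≠ 0) {a b h : k[X]} (hB : BaseT K₀ a b) {n : ℕ} (h5 : 5 ≤ n)
    (hpar : Odd n ∨ NoInf a b)
    (hf : ∀ ξ : k, (b * (a ^ 2 - 4 * b)).IsRoot ξ → FF n (h - C ξ)) : Good k K₀ n a b h where
  fib := fun ξ hξ => ⟨(hf ξ hξ).1.1, (hf ξ hξ).1.2, (hf ξ hξ).2.1⟩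
  tate := by
    intro L L' K F _ _ _ _ _ _ _ _ _ _ _ _ _ hT M hMn hM hns
    exact holds_ext h2 hB h5 hpar hf hT M hMn hM hns
  solv := by
    intro L L' K F _ _ _ _ _ _ _ _ _ _ _ _ _ hT hM
    exact holds_solv h2 hB h5 hpar hf hT hM

end holds

section density

open Pool.Agent.X243.Gen (FF FF_unit Zc Aev densAff aff_good tendsto_of_dens bF_const)
open Pool.Agent.Y160.T3 (bF)
open Pool.Agent.X243.Tate (bF_map)

variable (R k K₀ : Type) [CommRing R] [IsDomain R] [IsIntegrallyClosed R] [Algebra.FiniteType ℤ R]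
  [Field k] [Algebra R k] [IsFractionRing R k] [Field K₀] [Algebra k[X] K₀] [IsFractionRing k[X] K₀]

/-- The congruences, uniformly in the base. -/
theorem dens (hR : ¬ IsField R) (h2 : (2 : R) ≠ 0) {n : ℕ} (hn : 5 ≤ n) (m : ℕ) {D : R}
    (hD : D ≠ 0) (η : ℝ) (hη : 0 < η) :
    ∃ M : Ideal R, Finite (R ⧸ M) ∧ ∀ a b : k[X], BaseT K₀ a b → (Odd n ∨ NoInf a b) →
      (∃ r : Fin m → R, ∀ ξ : k, (b * (a ^ 2 - 4 * b)).IsRoot ξ →
        ∃ i, algebraMap R k (r i) = algebraMap R k D * ξ) →
      (1 - η) * (Nat.card (R ⧸ M) : ℝ) ^ (Fintype.card (Fin (n + 1))) ≤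
        (({z : Fin (n + 1) → R ⧸ M | ∀ y : Fin (n + 1) → R, InClass y z →
          Good k K₀ n a b (poly k y)}.ncard : ℕ) : ℝ) := by
  have : IsNoetherianRing R := Algebra.FiniteType.isNoetherianRing ℤ R
  have h2k : (2 : k) ≠ 0 := by
    rw [← map_ofNat (algebraMap R k) 2]
    exact (map_ne_zero_iff _ (IsFractionRing.injective R k)).2 h2
  obtain ⟨M, hM, hd⟩ := densAff R hR h2 (I := Fin m) (N := n) (by omega) (l := fun _ => D)
    (fun _ => hD) η hη
  have := hM
  refine ⟨M, hM, ?_⟩
  rintro a b hB hpar ⟨r, hr⟩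
  refine (hd (fun i j => if j = 0 then -(r i) else 0)).trans ?_
  have h3 : ∀ S T : Set (Fin (n + 1) → R ⧸ M), S ⊆ T →
      ((S.ncard : ℕ) : ℝ) ≤ ((T.ncard : ℕ) : ℝ) := fun S T h => by
    exact_mod_cast Set.ncard_le_ncard h (Set.toFinite _)
  apply h3
  intro z hz y hy
  refine good_of_FF h2k hB hn hpar (fun ξ hξ => ?_)
  obtain ⟨i, hi⟩ := hr ξ hξ
  have hd' : algebraMap R k D ≠ 0 := (map_ne_zero_iff _ (IsFractionRing.injective R k)).2 hD
  apply FF_unit hd'
  refine aff_good (B := 2 * n + 2) (c := ∏ _i : Fin m, D) (by omega) (y := y)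
    (l := fun _ => D) (s := fun i j => if j = 0 then -(r i) else 0) (fun i => ?_) i ?_
  · obtain ⟨p, hp, hp'⟩ := hz i
    exact ⟨p, hp, hp' y hy⟩
  · have e1 : (bF y).map (algebraMap R k) = poly k y := by rw [bF_map]; rfl
    rw [e1, bF_const, map_C, map_neg, hi, C_neg, C_mul]
    ring

end density

theorem result :
    ∀ (R k K₀ : Type) [CommRing R] [IsDomain R] [IsIntegrallyClosed R] [Algebra.FiniteType ℤ R]
      [Field k] [Algebra R k] [IsFractionRing R k] [Field K₀] [Algebra k[X] K₀]
      [IsFractionRing k[X] K₀], ¬ IsField R → (2 : R) ≠ 0 →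
      (∀ n : ℕ, 5 ≤ n →
        (∀ (m : ℕ) (D : R), D ≠ 0 → ∀ η : ℝ, 0 < η → ∃ M : Ideal R, Finite (R ⧸ M) ∧
          ∀ a b : k[X], BaseT K₀ a b → (Odd n ∨ NoInf a b) →
            (∃ r : Fin m → R, ∀ ξ : k, (b * (a ^ 2 - 4 * b)).IsRoot ξ →
              ∃ i, algebraMap R k (r i) = algebraMap R k D * ξ) →
            (1 - η) * (Nat.card (Fin (n + 1) → R ⧸ M) : ℝ) ≤
              (({z : Fin (n + 1) → R ⧸ M | ∀ y : Fin (n + 1) → R, InClass y z →
                Good k K₀ n a b (poly k y)}.ncard : ℕ) : ℝ)) ∧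
        (∀ B : ℕ → Finset (Fin (n + 1) → R), (∀ i, (B i).Nonempty) → Equidistributed B →
          ∀ a b : k[X], BaseT K₀ a b → (Odd n ∨ NoInf a b) →
            Tendsto (fun i => (((B i).filter (fun y => Good k K₀ n a b (poly k y))).card : ℝ) /
              ((B i).card : ℝ)) atTop (𝓝 1))) ∧
      (BaseT K₀ (1 : k[X]) X ∧ NoInf (1 : k[X]) X) ∧
      (∀ w α β : k, w ≠ 0 → α ≠ β →
        BaseT K₀ (C (w ^ 2 + α + β) - 2 * X : k[X]) ((X - C α) * (X - C β)) ∧
        NoInf (C (w ^ 2 + α + β) - 2 * X : k[X]) ((X - C α) * (X - C β)) ∧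
        ∃ P : Pt (E0 K₀ (C (w ^ 2 + α + β) - 2 * X : k[X]) ((X - C α) * (X - C β))) K₀,
          ∀ n : ℕ, 0 < n → n • P ≠ 0) ∧
      (∀ μ : k, μ ≠ 0 → μ ≠ -1 → BaseT K₀ (aT2 μ) (bT2 μ) ∧ NoInf (aT2 μ) (bT2 μ) ∧
        (μ ≠ 1 → μ ≠ -2 → 2 * μ ≠ -1 →
          ∃ P : Fin 2 → Pt (E0 K₀ (aT2 μ) (bT2 μ)) K₀, LinearIndependent ℤ P)) := by
  intro R k K₀ _ _ _ _ _ _ _ _ _ _ hR h2
  have : IsNoetherianRing R := Algebra.FiniteType.isNoetherianRing ℤ R
  have h2k : (2 : k) ≠ 0 := by
    rw [← map_ofNat (algebraMap R k) 2]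
    exact (map_ne_zero_iff _ (IsFractionRing.injective R k)).2 h2
  have hcard : ∀ (n : ℕ) (M : Ideal R), (Nat.card (Fin (n + 1) → R ⧸ M) : ℝ) =
      (Nat.card (R ⧸ M) : ℝ) ^ (Fintype.card (Fin (n + 1))) := by
    intro n M
    rw [Nat.card_fun, Nat.card_eq_fintype_card (α := Fin (n + 1))]
    push_cast
    rfl
  refine ⟨fun n hn => ⟨?_, ?_⟩, Pool.Agent.X243.Gen.baseT0 h2k, ?_, ?_⟩
  · intro m D hD η hη
    obtain ⟨M, hM, hd⟩ := dens R k K₀ hR h2 hn m hD η hη
    refine ⟨M, hM, fun a b hB hpar hr => ?_⟩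
    rw [hcard]
    exact hd a b hB hpar hr
  · intro B hB heq a b hbase hpar
    -- the common denominator of the roots
    have hne : b * (a ^ 2 - 4 * b) ≠ 0 := mul_ne_zero hbase.hb hbase.hd
    obtain ⟨D, hD⟩ := IsLocalization.exist_integer_multiples_of_finset (nonZeroDivisors R)
      ((b * (a ^ 2 - 4 * b)).roots.toFinset)
    have hD0 : (D : R) ≠ 0 := nonZeroDivisors.ne_zero D.2
    obtain ⟨m, e⟩ : ∃ m, m = ((b * (a ^ 2 - 4 * b)).roots.toFinset).card := ⟨_, rfl⟩
    let φ : Fin m ≃ {x // x ∈ (b * (a ^ 2 - 4 * b)).roots.toFinset} :=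
      (finCongr e).trans ((b * (a ^ 2 - 4 * b)).roots.toFinset).equivFin.symm
    have hr : ∃ r : Fin m → R, ∀ ξ : k, (b * (a ^ 2 - 4 * b)).IsRoot ξ →
        ∃ i, algebraMap R k (r i) = algebraMap R k (D : R) * ξ := by
      have hint : ∀ i : Fin m, ∃ c : R, algebraMap R k c = algebraMap R k (D : R) * (φ i).1 := by
        intro i
        obtain ⟨c, hc⟩ := hD (φ i).1 (φ i).2
        refine ⟨c, hc.trans ?_⟩
        rw [Algebra.smul_def]
      choose r hr using hint
      refine ⟨r, fun ξ hξ => ?_⟩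
      have hmem : ξ ∈ (b * (a ^ 2 - 4 * b)).roots.toFinset := by
        rw [Multiset.mem_toFinset]
        exact (mem_roots hne).2 hξ
      refine ⟨φ.symm ⟨ξ, hmem⟩, ?_⟩
      rw [hr, Equiv.apply_symm_apply]
    have hlim := Pool.Agent.X243.Gen.tendsto_of_dens
      {y : Fin (n + 1) → R | Good k K₀ n a b (poly k y)} (fun η hη => by
        obtain ⟨M, hM, hd⟩ := dens R k K₀ hR h2 hn m hD0 η hη
        exact ⟨M, hM, hd a b hbase hpar hr⟩) B hB (by
        intro M hM x
        have h1 := heq M hM x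
        rw [hcard] at h1
        refine h1.congr fun i => ?_
        congr!)
    exact hlim
  · intro w α β hw hαβ
    obtain ⟨h1, h3⟩ := Pool.Agent.X243.Gen.baseT1 (K := K₀) h2k hw hαβ
    refine ⟨h1, h3, ?_⟩
    have h4 : (4 : k) ≠ 0 := by
      have : (4 : k) = 2 * 2 := by norm_num
      rw [this]
      exact mul_ne_zero h2k h2k
    have hw2 : 4 * w ^ 2 ≠ 0 := mul_ne_zero h4 (pow_ne_zero 2 hw)
    have hnw : -(4 * w ^ 2) ≠ 0 := neg_ne_zero.2 hw2
    obtain ⟨γ, hγ⟩ : ∃ γ : k, γ = ((w ^ 2 + α + β) ^ 2 - 4 * α * β) / (4 * w ^ 2) := ⟨_, rfl⟩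
    have hwγ : 4 * w ^ 2 * γ = (w ^ 2 + α + β) ^ 2 - 4 * α * β := by
      rw [hγ]; exact mul_div_cancel₀ _ hw2
    have e4 : (4 : k[X]) = C 4 := by rw [C_ofNat]
    have ea : (C (w ^ 2 + α + β) - 2 * X : k[X]) = C w ^ 2 - (X - C α) - (X - C β) := by
      rw [C_add, C_add, C_pow]; ring
    have ed : (C w ^ 2 - (X - C α) - (X - C β) : k[X]) ^ 2 - 4 * ((X - C α) * (X - C β)) =
        C (-(4 * w ^ 2)) * (X - C γ) := by
      have h3 := congrArg (C : k → k[X]) hwγ
      simp only [C_mul, C_sub, C_add, C_pow, ← e4] at h3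
      rw [C_neg, C_mul, C_pow, ← e4]
      linear_combination -h3
    have hco : IsCoprime (X - C α : k[X]) (X - C β) :=
      isCoprime_X_sub_C_of_isUnit_sub (isUnit_iff_ne_zero.2 (sub_ne_zero.2 hαβ))
    have key := Pool.Agent.X243.Tate.inf_order (K := K₀) h2k (w := C w) (irreducible_X_sub_C α)
      (irreducible_X_sub_C β) hco (by
        rw [ed]
        exact (irreducible_isUnit_mul (isUnit_C.2 (isUnit_iff_ne_zero.2 hnw))).2
          (irreducible_X_sub_C γ))
    show ∃ P : Pt (crvT (algebraMap k[X] K₀ (C (w ^ 2 + α + β) - 2 * X : k[X]))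
      (algebraMap k[X] K₀ ((X - C α) * (X - C β)))) K₀, ∀ n : ℕ, 0 < n → n • P ≠ 0
    rw [ea]
    exact key
  · intro μ h0 h1
    obtain ⟨h3, h4⟩ := Pool.Agent.X243.Gen.baseT2 (K := K₀) h2k h0 h1
    refine ⟨h3, h4, fun g1 g2 g3 => ?_⟩
    obtain ⟨P, hP⟩ : ∃ P : k[X], P = X - C (-(1 + μ) ^ 2) := ⟨_, rfl⟩
    obtain ⟨Q, hQ⟩ : ∃ Q : k[X], Q = X - C (-(μ * (1 + μ)) ^ 2) := ⟨_, rfl⟩
    obtain ⟨T, hT⟩ : ∃ T : k[X], T = X - C (-μ ^ 2) := ⟨_, rfl⟩
    have hν : 1 + μ ≠ 0 := fun h => h1 (by linear_combination h)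
    have eP : P = X + (1 + C μ) ^ 2 := by rw [hP]; simp only [C_neg, C_pow, C_add, C_1]; ring
    have eQ : Q = X + (C μ * (1 + C μ)) ^ 2 := by
      rw [hQ]; simp only [C_neg, C_pow, C_add, C_mul, C_1]; ring
    have eT : T = X + C μ ^ 2 := by rw [hT]; simp only [C_neg, C_pow]; ring
    have ea : aT2 μ = -2 * ((1 + C μ + C μ ^ 2) * X + (C μ * (1 + C μ)) ^ 2) := by
      rw [aT2]; simp only [C_mul, C_add, C_pow, C_1]
    have eb : bT2 μ = Q * P * T := by
      rw [bT2, eP, eQ, eT]; simp only [C_mul, C_add, C_1]; ring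
    have co : ∀ x y : k, x ≠ y → IsCoprime (X - C x : k[X]) (X - C y) := fun x y h =>
      isCoprime_X_sub_C_of_isUnit_sub (isUnit_iff_ne_zero.2 (sub_ne_zero.2 h))
    have cPQ : IsCoprime Q P := by
      rw [hP, hQ]
      refine co _ _ fun h => ?_
      have h5 : (1 + μ) ^ 2 * ((μ - 1) * (μ + 1)) = 0 := by linear_combination -h
      rcases mul_eq_zero.1 h5 with h6 | h6
      · exact pow_ne_zero 2 hν h6
      · rcases mul_eq_zero.1 h6 with h7 | h7
        · exact g1 (by linear_combination h7)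
        · exact hν (by linear_combination h7)
    have cPT : IsCoprime P T := by
      rw [hP, hT]
      refine co _ _ fun h => g3 ?_
      linear_combination -h
    have cQT : IsCoprime Q T := by
      rw [hQ, hT]
      refine co _ _ fun h => ?_
      have h5 : μ ^ 2 * (μ * (μ + 2)) = 0 := by linear_combination -h
      rcases mul_eq_zero.1 h5 with h6 | h6
      · exact pow_ne_zero 2 h0 h6
      · rcases mul_eq_zero.1 h6 with h7 | h7
        · exact h0 h7
        · exact g2 (by linear_combination h7)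
    have hdisc : ¬ IsSquare ((algebraMap k[X] K₀ (aT2 μ)) ^ 2 - 4 * algebraMap k[X] K₀ (bT2 μ)) := by
      have e : (algebraMap k[X] K₀ (aT2 μ)) ^ 2 - 4 * algebraMap k[X] K₀ (bT2 μ) =
          algebraMap k[X] K₀ (C (-4) * X) * (algebraMap k[X] K₀ X) ^ 2 := by
        rw [← map_pow, ← map_ofNat (algebraMap k[X] K₀) 4, ← map_mul, ← map_sub,
          Pool.Agent.X243.Gen.disc_T2, ← map_pow, ← map_mul]
        congr 1
        rw [C_neg, C_ofNat]
        ring
      rw [e]
      have h4' : (-4 : k) ≠ 0 := by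
        have h5 : (4 : k) = 2 * 2 := by norm_num
        rw [neg_ne_zero, h5]
        exact mul_ne_zero h2k h2k
      have hns := Pool.Agent.X243.Tate.not_sq_irr (K := K₀) (d := C (-4) * X)
        ((irreducible_isUnit_mul (isUnit_C.2 (isUnit_iff_ne_zero.2 h4'))).2 irreducible_X)
      rintro ⟨z, hz⟩
      have hX : algebraMap k[X] K₀ X ≠ 0 := by simp
      apply hns
      refine ⟨z / algebraMap k[X] K₀ X, ?_⟩
      field_simp
      rw [hz]
      ring
    have rQ : Q + aT2 μ + P * T = X ^ 2 := by rw [ea, eP, eQ, eT]; ring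
    have rP : C μ ^ 4 * P + aT2 μ * C μ ^ 2 + Q * T = X ^ 2 := by rw [ea, eP, eQ, eT]; ring
    exact Pool.Agent.N601.PB.indepT (K := K₀) h2k (a := aT2 μ) (b := bT2 μ) (p := Q) (q := P) (r := T)
      (x1 := Q) (y1 := X * Q) (x2 := C μ ^ 2 * P) (y2 := C μ * X * P) (c1 := 1) (c2 := μ ^ 2)
      one_ne_zero (pow_ne_zero 2 h0) (by rw [hQ]; exact irreducible_X_sub_C _)
      (by rw [hP]; exact irreducible_X_sub_C _) (by rw [hT]; exact irreducible_X_sub_C _)
      cPQ cQT cPT eb hdisc (by rw [eb]; linear_combination (-(Q ^ 2)) * rQ)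
      (by rw [eb]; linear_combination (-(C μ ^ 2 * P ^ 2)) * rP)
      (by rw [C_1, one_mul]) (by rw [C_pow])

end Pool.Agent.Results.MP_89bcae_ag.AlmostAllPullbacks
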