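import Mathlib
import Pool.Agent.TH115.GD.Defs
import Pool.Agent.TH115.GD.Defs2
import Pool.Agent.X243.Gen.Main2

/-!
# The Tate conjecture at 2 for 100% of the elliptic surfaces with full level two over all finitely
# generated fields of characteristic different from 2, all their extensions with solvable constants and
# all the twists by constants

Let `R` be an integrally closed domain which is finitely generated as a ring and not a field, with
`2 ≠ 0` in `R`, and `k` its field of fractions. (Each infinite finitely generated field of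
characteristic different from 2 is the field of fractions of such an `R`.) Every elliptic curve over
`k(t)` whose points of order two are rational is a twist of a curve

`E : y² = x (x - a) (x - b)`

with coprime polynomials `a`, `b`. For general `a`, `b` of degree at most `N` the elliptic surface `X` over the
projective line with the generic fibre `E` has fibres of type `I₂` over the `3 N` roots of `a`, `b`,
`a - b`, and its geometric genus is `⌈N / 2⌉ - 1`.

Call `(a, b)` good if `a`, `b`, `a - b` are irreducible over `k` of degree `N` and separable, `a` and `b` are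
coprime, and for EVERY extension field `L` of `k` (for example `L = k`) with a separable closure `L'` the
following holds.

(A) If the elements of `L` which are separable algebraic over `k` lie in a normal extension `M` of `k` in
`L'`, such that none of `a`, `b`, `a - b` splits into linear factors over `M`, then (`HoldsOver`) for EVERY
constant `δ ≠ 0` of `L` and the twist `E_δ : y² = x (x - δ a) (x - δ b)` over `L(t)`

(i) the Tate conjecture for divisors at the prime 2 holds (`TateAtTwo`): the classes in
`V₂ Sel(E_δ / L'(t))` which are fixed by the Galois group come from `E_δ(L(t))`;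

(ii) in fact all these classes are zero (`GeneratedBy` with `0` generators), so `E_δ(L(t))` contributes
nothing to the Picard number of the surface over `L`.

(B) The same is true if for each element of `L` which is separable algebraic over `k` the Galois group of
its minimal polynomial over `k` is solvable.

Theorem. Let `N ≥ 5` (even or odd).

(1) (Congruences.) For every `η > 0` there is an ideal `M` of `R` with finite quotient and a set of
residue classes modulo `M` of pairs `(a, b)` over `R` of degree at most `N` with proportion at least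
`1 - η` among all the residue classes, such that EVERY pair over `R` in one of these residue classes
is good.

(2) (100%.) Let `B 0`, `B 1`, ... be a sequence of nonempty finite sets of such pairs over `R` which is
equidistributed modulo each ideal of `R` with finite quotient. Then the proportion of the good
pairs in `B i` tends to `1`.

The proof: Frobenius elements at maximal ideals of `R` show that the Galois groups of `a`, `b`, `a - b` over
`k` are the full symmetric groups, and that the Galois group of the field generated by the square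
roots of the values `b(θ)` at the roots `θ` of `a` contains, over the splitting field of `a`, all the
sign changes of even number; so over `L` the polynomials `a`, `b`, `a - b` are irreducible and not constants
times norms from quadratic extensions, and no constant times `b` is a square modulo `a`. By the first
descent a class is given modulo 2 by one of eight triples of divisors, four of them belong to the points
of order two, and the other four are excluded by the second descent, for all the twists by constants at
once. Last, a sieve over the maximal ideals of `R`.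
-/

namespace Pool.Agent.Results.MP_89bcae_ag.FullLevelTwo

open Polynomial Pool.Agent.TH115.GD Filter Topology
open scoped Classical

/-- The polynomial over `k` with the coefficients `c`. -/
noncomputable def poly {R : Type} [CommRing R] (k : Type) [Field k] [Algebra R k] {r : ℕ}
    (c : Fin r → R) : k[X] :=
  ∑ j : Fin r, C (algebraMap R k (c j)) * X ^ (j : ℕ)

/-- The pairs of coefficient vectors of polynomials of degree at most `N`. -/
abbrev Pairs (N : ℕ) (R : Type) : Type := (Fin (N + 1) → R) × (Fin (N + 1) → R)

/-- The conclusions for all the twists `y² = x (x - δ a) (x - δ b)` by constants `δ` of `L` (`L'` is a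
separable closure of `L`, `K = L(t)`, `F = L'(t)`), for the polynomials `a`, `b` over the subfield `k` of
`L`. -/
def HoldsOver {k : Type} [Field k] (a b : k[X]) (L L' K F : Type) [Field L] [Field L']
    [Algebra L L'] [Field K] [Algebra L[X] K] [Field F] [Algebra L'[X] F]
    [IsFractionRing L'[X] F] [Algebra K F] [Algebra k L] : Prop :=
  ∀ δ : L, δ ≠ 0 →
    TateAtTwo (F := F) L' (crv (algebraMap L[X] K (C δ * a.map (algebraMap k L)))
      (algebraMap L[X] K (C δ * b.map (algebraMap k L)))) ∧
    GeneratedBy (F := F) L' (crv (algebraMap L[X] K (C δ * a.map (algebraMap k L)))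
      (algebraMap L[X] K (C δ * b.map (algebraMap k L)))) 0

/-- The good pairs. -/
structure Good (k : Type) [Field k] (N : ℕ) (a b : k[X]) : Prop where
  irrA : Irreducible a ∧ a.natDegree = N ∧ a.Separable
  irrB : Irreducible b ∧ b.natDegree = N ∧ b.Separable
  irrD : Irreducible (a - b) ∧ (a - b).natDegree = N ∧ (a - b).Separable
  cop : IsCoprime a b
  tate : ∀ (L L' K F : Type) [Field L] [Field L'] [Algebra L L'] [Field K] [Algebra L[X] K]
    [Field F] [Algebra L'[X] F] [IsFractionRing L'[X] F] [Algebra K F]
    [Algebra k L] [Algebra k L'] [IsScalarTower k L L'], IsTower L L' K F →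
      ∀ M : IntermediateField k L', Normal k M →
        (∀ x : L, IsSeparable k x → algebraMap L L' x ∈ M) →
        ¬ (a.map (algebraMap k M)).Splits → ¬ (b.map (algebraMap k M)).Splits →
        ¬ ((a - b).map (algebraMap k M)).Splits →
        HoldsOver a b L L' K F
  solv : ∀ (L L' K F : Type) [Field L] [Field L'] [Algebra L L'] [Field K] [Algebra L[X] K]
    [Field F] [Algebra L'[X] F] [IsFractionRing L'[X] F] [Algebra K F]
    [Algebra k L] [Algebra k L'] [IsScalarTower k L L'], IsTower L L' K F →
      (∀ x : L, IsSeparable k x → Group.IsSolvable (minpoly k x).Gal) →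
        HoldsOver a b L L' K F

/-- The pair `y` over `R` is in the residue class `z`. -/
def InClass {R : Type} [CommRing R] {N : ℕ} {M : Ideal R} (y : Pairs N R)
    (z : Pairs N (R ⧸ M)) : Prop :=
  (∀ j, Ideal.Quotient.mk M (y.1 j) = z.1 j) ∧ (∀ j, Ideal.Quotient.mk M (y.2 j) = z.2 j)

/-- A sequence of finite sets of pairs which is equidistributed modulo each ideal with finite
quotient. -/
def Equidistributed {R : Type} [CommRing R] {N : ℕ} (B : ℕ → Finset (Pairs N R)) : Prop :=
  ∀ M : Ideal R, Finite (R ⧸ M) → ∀ z : Pairs N (R ⧸ M),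
    Tendsto (fun i => (((B i).filter (fun y => InClass y z)).card : ℝ) / ((B i).card : ℝ)) atTop
      (𝓝 (1 / (Nat.card (Pairs N (R ⧸ M)) : ℝ)))

/-- The vector of all the coefficients. -/
def toV {N : ℕ} {R : Type} (z : Pairs N R) : Fin (N + 1) ⊕ Fin (N + 1) → R := Sum.elim z.1 z.2

theorem toV_inj {N : ℕ} {R : Type} : Function.Injective (toV (N := N) (R := R)) := by
  rintro ⟨a, b⟩ ⟨a', b'⟩ h
  exact Prod.ext (funext fun j => congrFun h (Sum.inl j)) (funext fun j => congrFun h (Sum.inr j))

theorem toV_surj {N : ℕ} {R : Type} (y : Fin (N + 1) ⊕ Fin (N + 1) → R) :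
    ∃ z : Pairs N R, toV z = y := by
  refine ⟨(fun j => y (Sum.inl j), fun j => y (Sum.inr j)), ?_⟩
  funext j
  rcases j with j | j <;> rfl

theorem inClass_iff {R : Type} [CommRing R] {N : ℕ} {M : Ideal R} (y : Pairs N R)
    (z : Pairs N (R ⧸ M)) :
    InClass y z ↔ ∀ j, Ideal.Quotient.mk M (toV y j) = toV z j := by
  constructor
  · rintro ⟨h1, h2⟩ (j | j)
    · exact h1 j
    · exact h2 j
  · intro h
    exact ⟨fun j => h (Sum.inl j), fun j => h (Sum.inr j)⟩

theorem good_of {R k : Type} [CommRing R] [IsDomain R] [IsIntegrallyClosed R] [IsNoetherianRing R]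
    [Field k] [Algebra R k] [IsFractionRing R k] (h2 : (2 : R) ≠ 0)
    {N B : ℕ} (hN : 5 ≤ N) {z : Pairs N R}
    (h : ∀ s : Option (Fin 3 × Fin 3), ∃ p ∈ Pool.Agent.X243.Gen.Zg R B,
      (fun j => Ideal.Quotient.mk p (toV z j)) ∈ Pool.Agent.X243.Sol.Fe7 N s (R ⧸ p)) :
    Good k N (poly k z.1) (poly k z.2) := by
  have h2k : (2 : k) ≠ 0 := by
    rw [← map_ofNat (algebraMap R k) 2]
    exact (map_ne_zero_iff _ (IsFractionRing.injective R k)).2 h2
  obtain ⟨h1, h3, h4, h5⟩ := Pool.Agent.X243.Gen.fl_goodG (k := k) (by omega : 3 ≤ N) h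
    (poly k z.1) (poly k z.2)
    (Pool.Agent.X243.Tate.bF_map (algebraMap R k) z.1).symm
    (Pool.Agent.X243.Tate.bF_map (algebraMap R k) z.2).symm
  refine ⟨⟨h1.1.1, h1.1.2, h1.2.1⟩, ⟨h3.1.1, h3.1.2, h3.2.1⟩, ⟨h4.1.1, h4.1.2, h4.2.1⟩,
    Pool.Agent.X243.Gen.cop_ofG h1 h5, ?_, ?_⟩
  · intro L L' K F _ _ _ _ _ _ _ _ _ _ _ _ hT M hMn hM a1 a2 a3 δ hδ
    exact Pool.Agent.X243.Gen.fl_extG h2k hN h1 h3 h4 h5 hT M hMn hM a1 a2 a3 δ hδ
  · intro L L' K F _ _ _ _ _ _ _ _ _ _ _ _ hT hM δ hδ
    exact Pool.Agent.X243.Gen.fl_solvG h2k hN h1 h3 h4 h5 hT hM δ hδ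

theorem result :
    ∀ (R k : Type) [CommRing R] [IsDomain R] [IsIntegrallyClosed R] [Algebra.FiniteType ℤ R]
      [Field k] [Algebra R k] [IsFractionRing R k], ¬ IsField R → (2 : R) ≠ 0 →
      ∀ N : ℕ, 5 ≤ N →
        (∀ η : ℝ, 0 < η → ∃ M : Ideal R, Finite (R ⧸ M) ∧
          (1 - η) * (Nat.card (Pairs N (R ⧸ M)) : ℝ) ≤
          (({z : Pairs N (R ⧸ M) | ∀ y : Pairs N R, InClass y z →
                Good k N (poly k y.1) (poly k y.2)}.ncard : ℕ) : ℝ)) ∧
        (∀ B : ℕ → Finset (Pairs N R), (∀ i, (B i).Nonempty) → Equidistributed B →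
          Tendsto (fun i => (((B i).filter (fun y =>
              Good k N (poly k y.1) (poly k y.2))).card : ℝ) /
            ((B i).card : ℝ)) atTop (𝓝 1)) := by
  intro R k _ _ _ _ _ _ _ hR h2 N hN
  have : IsNoetherianRing R := Algebra.FiniteType.isNoetherianRing ℤ R
  have hcard : ∀ M : Ideal R, (Nat.card (Pairs N (R ⧸ M)) : ℝ) =
      (Nat.card (R ⧸ M) : ℝ) ^ (Fintype.card (Fin (N + 1) ⊕ Fin (N + 1))) := by
    intro M
    rw [Nat.card_congr (Equiv.ofBijective _ ⟨toV_inj (N := N) (R := R ⧸ M), toV_surj⟩),
      Nat.card_fun, Nat.card_eq_fintype_card (α := Fin (N + 1) ⊕ Fin (N + 1))]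
    push_cast
    rfl
  -- the good vectors
  obtain ⟨S, hS⟩ : ∃ S : Set (Fin (N + 1) ⊕ Fin (N + 1) → R),
      S = {x | ∃ z : Pairs N R, toV z = x ∧ Good k N (poly k z.1) (poly k z.2)} := ⟨_, rfl⟩
  have hSmem : ∀ y : Pairs N R, toV y ∈ S ↔ Good k N (poly k y.1) (poly k y.2) := by
    intro y
    rw [hS]
    constructor
    · rintro ⟨z, hz, hg⟩
      rwa [toV_inj hz] at hg
    · intro hg
      exact ⟨y, rfl, hg⟩
  have key : ∀ η : ℝ, 0 < η → ∃ M : Ideal R, Finite (R ⧸ M) ∧
      (1 - η) * (Nat.card (R ⧸ M) : ℝ) ^ (Fintype.card (Fin (N + 1) ⊕ Fin (N + 1))) ≤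
        (({x : Fin (N + 1) ⊕ Fin (N + 1) → R ⧸ M | ∀ y : Fin (N + 1) ⊕ Fin (N + 1) → R,
          (∀ j, Ideal.Quotient.mk M (y j) = x j) → y ∈ S}).ncard : ℝ) := by
    intro η hη
    obtain ⟨M, hM, hd⟩ := Pool.Agent.X243.Gen.densFull R hR h2 (by omega : 3 ≤ N) η hη
    have := hM
    refine ⟨M, hM, hd.trans ?_⟩
    have h3 : ∀ S T : Set (Fin (N + 1) ⊕ Fin (N + 1) → R ⧸ M), S ⊆ T →
        ((S.ncard : ℕ) : ℝ) ≤ ((T.ncard : ℕ) : ℝ) := fun S T h => by
      exact_mod_cast Set.ncard_le_ncard h (Set.toFinite _)
    apply h3
    intro x hx y hy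
    obtain ⟨z, rfl⟩ := toV_surj y
    rw [hSmem]
    refine good_of h2 hN (B := 2 * N + 2) (fun s => ?_)
    obtain ⟨p, hp, hp'⟩ := hx s
    exact ⟨p, hp, hp' (toV z) hy⟩
  constructor
  · intro η hη
    obtain ⟨M, hM, hd⟩ := key η hη
    have := hM
    refine ⟨M, hM, ?_⟩
    rw [hcard]
    refine hd.trans ?_
    rw [← Set.ncard_image_of_injective _ (toV_inj (R := R ⧸ M) (N := N))]
    have h3 : ∀ S T : Set (Fin (N + 1) ⊕ Fin (N + 1) → R ⧸ M), S ⊆ T →
        ((S.ncard : ℕ) : ℝ) ≤ ((T.ncard : ℕ) : ℝ) := fun S T h => by
      exact_mod_cast Set.ncard_le_ncard h (Set.toFinite _)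
    apply h3
    intro x hx
    obtain ⟨z, rfl⟩ := toV_surj x
    refine ⟨z, fun y hy => ?_, rfl⟩
    rw [← hSmem]
    exact hx _ ((inClass_iff y z).1 hy)
  · intro B hB heq
    have hinj : Function.Injective (toV (R := R) (N := N)) := toV_inj
    have hc : ∀ (i : ℕ) (P : (Fin (N + 1) ⊕ Fin (N + 1) → R) → Prop) [DecidablePred P]
        (Q : Pairs N R → Prop) [DecidablePred Q], (∀ y, P (toV y) ↔ Q y) →
        (((B i).map ⟨toV, hinj⟩).filter P).card = ((B i).filter Q).card := by
      intro i P _ Q _ hPQ
      rw [Finset.filter_map, Finset.card_map]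
      congr 1
      ext y
      rw [Finset.mem_filter, Finset.mem_filter]
      exact and_congr_right fun _ => hPQ y
    have hlim := Pool.Agent.X243.Gen.tendsto_of_dens S key (fun i => (B i).map ⟨toV, hinj⟩)
      (fun i => (hB i).map) (by
        intro M hM x
        obtain ⟨z, rfl⟩ := toV_surj x
        have h1 := heq M hM z
        rw [hcard] at h1
        refine h1.congr fun i => ?_
        rw [Finset.card_map, hc i _ (fun y => InClass y z) (fun y => (inClass_iff y z).symm)])
    refine hlim.congr fun i => ?_
    rw [Finset.card_map, hc i _ (fun y => Good k N (poly k y.1) (poly k y.2)) hSmem]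

end Pool.Agent.Results.MP_89bcae_ag.FullLevelTwo
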