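import Pool.Agent.N874.JM.Final
import Pool.Agent.N874.JM.Gnu
import Pool.Agent.N874.Jac.Def

/-!
# The Tate conjecture for a positive proportion of all odd hyperelliptic surfaces over Galois 2-covers
of the line

Let `g ≥ 1`, let `k` be a finite field of characteristic larger than `2 g + 1`, `K = k(t)`, and let `M` be
ANY finite Galois extension of `K` whose degree is a power of two: `M` is the function field of a curve `B`
over a finite field `k'` (the constants of `M`) with a map to the line, for example any hyperelliptic curve
over `k`, or the line itself; the ramification is arbitrary. We consider ALL the surfaces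
`y ^ 2 = f(x, t)` over `B`, where `f` is a monic polynomial of degree `2 g + 1` in `x` over `k[t]` without
term of degree `2 g`, such that there is no irreducible `P` with `P ^ (2 (2 g + 1 - j)) ∣ f_j` for all `j`;
the height of `f` is the least `N` with `deg f_j ≤ N (2 g + 1 - j)` for all `j`. (For `B = ℙ^1` these are
all the surfaces with a fibration in curves of genus `g` of degree two over the line with a section of
Weierstrass points.)

Theorem. For a positive proportion of these `f`, ordered by the height, the Jacobian `J` of the curve
`y ^ 2 = f(x)` over `M` has the following property: multiplication by two is bijective on `J(M)` and all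
classes of 2-power order in the Tate-Shafarevich group of `J` over `M` are zero, even without conditions at
the places over infinity.

Let `X` be a smooth projective surface over `k'` with a map to `B` with generic fibre `y ^ 2 = f(x)`; it has
a section. The Brauer group of `X` is the Tate-Shafarevich group of `J` (Artin, Grothendieck), so its
2-primary part is zero, and by the theorem of Artin, Tate and Milne the Tate conjecture for divisors holds
for `X`, at all primes `ℓ`; `J(M)` is a finite group of odd order (Lang, Neron), so the Neron-Severi group
of `X` is generated, up to an odd index, by the components of the fibres and the section.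

Here `J(L)` is the Picard group of the affine coordinate ring `L[x, y] / (y ^ 2 - f)` (the curve has one
point at infinity, which is rational), and the Tate-Shafarevich group is defined by continuous cocycles on
the absolute Galois group with values in `J` of the separable closure.

Proof. By a descent (project JB) it is enough that the 2-Selmer group in the explicit form of Cassels and
Schaefer is trivial. `M = K(γ)`. We consider the `f` with squarefree discriminant which are irreducible at
infinity and modulo all prime divisors of a polynomial `δ` which contains the ramification of `M / K`, and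
which are `x h_Q(x)`, `h_Q` irreducible, modulo `Q ∈ S`; `S` is a large finite set of primes which split
completely in `M`. Self-dual lattices of rank `2 g + 1` over the projective line with a self-adjoint
operator, a reciprocity law and linear algebra give a subset `J` of `S` for which a Selmer group over `K`
of the twist by the product of the `Q ∈ J` is zero. The local conditions over `M` define a group of
elements of `M(θ)` modulo squares which is stable under `Gal(M / K)`; a descent along the steps of degree
two shows that it is zero because its invariant part comes from the Selmer group over `K`. Everywhere the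
primes of `M` at which `M / K` is ramified have to be unramified in `M(θ)`, with an odd number of residue
classes, and the primes which divide the twisting polynomial have to split completely. The case `M = K`,
with the explicit Selmer group, is `MP_60d5ce_nt.PositiveProportionJacobians`.

Project JM: helper874, after project PJ of helper352 (all genera, `M = K`) and project PM of helper874
(`g = 1`, all `M`), with parts by helpers 123, 301, 352, 507, 615, 738, 814; project JB (from the explicit
Selmer group to the Picard group and the cocycles): helper352, with 27, 106, 232, 424, 615, 655, based on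
work of helpers Y160, Y154, Y228, Y317, Y494, Y529, Y705, Y713, TH115; and, from PJ, PM and PP, 2, 50,
55, 87, 134, 160, 169, 195, 227, 262, 270, 401, 402, 415, 427, 434, 490, 498, 530, 539, 568, 572, 588,
603, 622, 655, 697, 704, 765, 769, 787. The idea to lift the theorem for `g = 1` to 2-extensions was also
found by helper783. (The theorem was first handed in as `MP_1d384c_nt.JacobiansOverTwoExtensions`.)
-/

set_option autoImplicit false
set_option linter.all false

namespace Pool.Agent.Results.MP_89bcae_ag.SurfacesOverTwoCovers

open Polynomial Filter IsDedekindDomain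
open Pool.Agent.N874.Jac (UniquelyTwoDivisible ShaTwoTrivial)
open scoped Classical

/-- `y ^ 2 = f(x, t)` is a minimal equation of a surface fibred in curves of genus `g` with a section of
Weierstrass points over the `t`-line, of height at most `N`. -/
structure IsSurface {k : Type} [Field k] (K : Type) [Field K] [Algebra k[X] K] (g N : ℕ)
    (f : k[X][X]) : Prop where
  monic : f.Monic
  degree : f.natDegree = 2 * g + 1
  trace : f.coeff (2 * g) = 0
  height : ∀ j ≤ 2 * g, (f.coeff j).natDegree ≤ N * (2 * g + 1 - j)
  smooth : (f.map (algebraMap k[X] K)).Separable
  minimal : ∀ P : k[X], Irreducible P →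
    ¬ ∀ j < 2 * g + 1, P ^ (2 * (2 * g + 1 - j)) ∣ f.coeff j

/-- The surfaces of genus `g` and height at most `N`. -/
def Surfaces (k : Type) [Field k] (K : Type) [Field K] [Algebra k[X] K] (g N : ℕ) : Set k[X][X] :=
  {f | IsSurface K g N f}

/-- Multiplication by two is bijective on `J(M)`, `J` the Jacobian of `y ^ 2 = F(x)`, and every class of
2-power order in `H ^ 1 (M, J)` which is zero over the completions of `M` at all maximal ideals of `R` is
zero. -/
def NoTwoPart (R : Type) {M : Type} [Field M] [CommRing R] [IsDedekindDomain R] [Algebra R M]
    [IsFractionRing R M] (F : M[X]) : Prop :=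
  UniquelyTwoDivisible F ∧ ShaTwoTrivial F R

/-- The surfaces of genus `g` and height at most `N` for which `f` is irreducible over `K` and the generic
fibre over `M` has no 2-part. -/
def TrivialTwoPart (R : Type) (M : Type) [Field M] [CommRing R] [IsDedekindDomain R] [Algebra R M]
    [IsFractionRing R M] (k : Type) [Field k] (K : Type) [Field K] [Algebra k[X] K]
    [Algebra k[X] M] (g N : ℕ) : Set k[X][X] :=
  {f ∈ Surfaces k K g N | Irreducible (f.map (algebraMap k[X] K)) ∧
    NoTwoPart R (f.map (algebraMap k[X] M))}

/-- For every `g ≥ 1`, every finite field `k` of characteristic larger than `2 g + 1` and every finite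
Galois extension `M` of `K = k(t)` of degree `2 ^ n` there is a positive constant `c` such that for all
large `N` at least `c` times the number of all the surfaces `y ^ 2 = f(x, t)` of genus `g` and height at
most `N` have `f` irreducible and a generic fibre over `M` whose Jacobian `J` has the property that
multiplication by two is bijective on `J(M)` and the 2-primary part of the Tate-Shafarevich group of `J`
over `M` is zero. Here `R` is the integral closure of `k[t]` in `M`. -/
theorem result (g : ℕ) (hg : 1 ≤ g) (k : Type) [Field k] [Finite k]
    (hp : ((2 * g + 1).factorial : k) ≠ 0) (K : Type) [Field K] [Algebra k[X] K]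
    [IsFractionRing k[X] K] (M : Type) [Field M] [Algebra K M] [Algebra k[X] M]
    [IsScalarTower k[X] K M] [FiniteDimensional K M] [IsGalois K M] (n : ℕ)
    (hn : Module.finrank K M = 2 ^ n) (R : Type) [CommRing R] [IsDedekindDomain R] [Algebra R M]
    [IsFractionRing R M] [Algebra k[X] R] [IsScalarTower k[X] R M] [IsIntegralClosure R k[X] M] :
    (∀ N : ℕ, (Surfaces k K g N).Finite) ∧
    ∃ c : ℝ, 0 < c ∧ ∀ᶠ N : ℕ in atTop, 0 < (Surfaces k K g N).ncard ∧
      c * ((Surfaces k K g N).ncard : ℝ) ≤ ((TrivialTwoPart R M k K g N).ncard : ℝ) := by
  have hsub : ∀ N, Surfaces k K g N ⊆ {f : k[X][X] | Pool.Agent.N352.PJ.Ht g N f} :=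
    fun N f hf => ⟨hf.monic, hf.degree, hf.trace, hf.height⟩
  have h2 : (2 : k) ≠ 0 := by
    intro h0
    apply hp
    have hd : 2 ∣ (2 * g + 1).factorial := Nat.dvd_factorial (by norm_num) (by omega)
    obtain ⟨e, he⟩ := hd
    rw [he, Nat.cast_mul, Nat.cast_ofNat, h0, zero_mul]
  have hfin : ∀ N, (Surfaces k K g N).Finite := fun N =>
    (Pool.Agent.N415.PJMAIN.ht_card (k := k) g N).1.subset (hsub N)
  refine ⟨hfin, ?_⟩
  obtain ⟨c, hc, N₀, hN₀⟩ := Pool.Agent.N874.JM.final k hg hp K M R hn
  refine ⟨c, hc, ?_⟩
  filter_upwards [eventually_ge_atTop N₀] with N hN
  obtain ⟨hHt, hle⟩ := hN₀ N hN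
  have hsub2 : {f : k[X][X] | Pool.Agent.N352.PJ.Ht g N f ∧ Pool.Agent.N352.PJ.Mini g f ∧
      (f.map (algebraMap k[X] K)).Separable ∧ Irreducible (f.map (algebraMap k[X] K)) ∧
      Pool.Agent.N874.JM.SelF R (f.map (algebraMap k[X] M))} ⊆
      TrivialTwoPart R M k K g N :=
    fun f hf => by
      obtain ⟨h4, h5⟩ := Pool.Agent.N874.JM.genuine K M R hn h2 hf.1.mon
        (by rw [hf.1.deg]; exact odd_two_mul_add_one g) hf.2.2.1 hf.2.2.2.1 hf.2.2.2.2
      exact ⟨⟨hf.1.mon, hf.1.deg, hf.1.tr, hf.1.ht, hf.2.2.1, hf.2.1⟩, hf.2.2.2.1,
        Pool.Agent.N874.Jac.div_of _ h4, Pool.Agent.N874.Jac.sha_of _ R h5⟩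
  have hfin2 : (TrivialTwoPart R M k K g N).Finite := (hfin N).subset fun f hf => hf.1
  have h1 := Set.ncard_le_ncard hsub2 hfin2
  have h2 : c * ({f : k[X][X] | Pool.Agent.N352.PJ.Ht g N f}.ncard : ℝ) ≤
      ((TrivialTwoPart R M k K g N).ncard : ℝ) := hle.trans (by exact_mod_cast h1)
  have hne : 0 < {f : k[X][X] | Pool.Agent.N352.PJ.Ht g N f}.ncard := by
    rw [Set.ncard_pos hHt]
    refine ⟨X ^ (2 * g + 1), monic_X_pow _, natDegree_X_pow _, ?_, fun j hj => ?_⟩
    · rw [coeff_X_pow, if_neg (by omega)]
    · rw [coeff_X_pow, if_neg (by omega), natDegree_zero]
      exact Nat.zero_le _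
  have h3 : 0 < ((TrivialTwoPart R M k K g N).ncard : ℝ) := by
    refine lt_of_lt_of_le ?_ h2
    exact mul_pos hc (by exact_mod_cast hne)
  refine ⟨?_, ?_⟩
  · have h4 := Set.ncard_le_ncard (s := TrivialTwoPart R M k K g N) (t := Surfaces k K g N)
      (fun f hf => hf.1) (hfin N)
    have h5 : 0 < (TrivialTwoPart R M k K g N).ncard := by exact_mod_cast h3
    omega
  · refine le_trans ?_ h2
    have h4 := Set.ncard_le_ncard (hsub N) hHt
    exact mul_le_mul_of_nonneg_left (by exact_mod_cast h4) hc.le

end Pool.Agent.Results.MP_89bcae_ag.SurfacesOverTwoCovers
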